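import Mathlib

set_option autoImplicit false

/-!
# Irredundance compelling colourings may need many more than `χ(G)` colours

For every `k ≥ 3` there is a finite connected graph with chromatic number three which has an
IRC-colouring with `k` colours but none with fewer than `k` colours.
-/

namespace Pool.Agent.Results.MP_c3fc26_co.UnboundedGap

universe u

variable {V : Type u}

/-- A set `S` of vertices is irredundant: every `v ∈ S` has a private neighbour, that is, a
vertex of the closed neighbourhood of `v` which lies in the closed neighbourhood of no other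
member of `S`. -/
def Irredundant (G : SimpleGraph V) (S : Set V) : Prop :=
  ∀ v ∈ S, ∃ w, (w = v ∨ G.Adj v w) ∧ ∀ u ∈ S, u ≠ v → ¬ (w = u ∨ G.Adj u w)

/-- A proper colouring of `G` with the colours `0, …, k - 1`, all of them used, is an
IRC-colouring if every rainbow committee (one vertex `x i` of every colour `i`) is an
irredundant set. -/
def IsIRC (G : SimpleGraph V) {k : ℕ} (c : G.Coloring (Fin k)) : Prop :=
  Function.Surjective c ∧ ∀ x : Fin k → V, (∀ i, c (x i) = i) → Irredundant G (Set.range x)

/-- In an IRC-colouring, if every neighbour of `x` is a neighbour of `z` and `x` has at least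
one neighbour, then `x` and `z` have the same colour. -/
theorem eq_color_of_nbr_subset {G : SimpleGraph V} {k : ℕ} {c : G.Coloring (Fin k)}
    (hc : IsIRC G c) {x y z : V} (hxy : G.Adj x y) (h : ∀ w, G.Adj x w → G.Adj z w) :
    c x = c z := by
  by_contra hne
  obtain ⟨g, hg⟩ := hc.1.hasRightInverse
  have h1 : c x ≠ c y := c.valid hxy
  have h2 : c z ≠ c y := c.valid (h y hxy)
  have hxz : x ≠ z := fun h => hne (congrArg c h)
  let X : Fin k → V := fun i =>
    if i = c x then x else if i = c y then y else if i = c z then z else g i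
  have hX : ∀ i, c (X i) = i := by
    intro i
    simp only [X]
    split_ifs with a1 a2 a3
    · exact a1.symm
    · exact a2.symm
    · exact a3.symm
    · exact hg i
  have hx : x ∈ Set.range X := ⟨c x, by simp [X]⟩
  have hy : y ∈ Set.range X := ⟨c y, by simp [X, h1.symm]⟩
  have hz : z ∈ Set.range X := ⟨c z, by simp [X, h2, Ne.symm hne]⟩
  obtain ⟨w, hw, hu⟩ := hc.2 X hX x hx
  rcases hw with rfl | hw
  · exact hu y hy (G.ne_of_adj hxy).symm (Or.inr hxy.symm)
  · exact hu z hz hxz.symm (Or.inr (h w hw))

/-- The graph: every `v : Fin k` has a block consisting of the copies `(v, some w, s)` of `v`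
and the two hubs `(v, none, s)`; inside a block the hubs are joined to all copies, and for
`v ≠ w` the copies `(v, some w, s)` and `(w, some v, t)` are joined. -/
def gapGraph (k : ℕ) : SimpleGraph (Fin k × Option (Fin k) × Bool) where
  Adj p q :=
    (p.1 = q.1 ∧ ((p.2.1 = none ∧ q.2.1 ≠ none) ∨ (p.2.1 ≠ none ∧ q.2.1 = none))) ∨
    (p.1 ≠ q.1 ∧ p.2.1 = some q.1 ∧ q.2.1 = some p.1)
  symm := ⟨by
    rintro p q (⟨h, h1 | h1⟩ | ⟨h, h1, h2⟩)
    · exact Or.inl ⟨h.symm, Or.inr ⟨h1.2, h1.1⟩⟩
    · exact Or.inl ⟨h.symm, Or.inl ⟨h1.2, h1.1⟩⟩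
    · exact Or.inr ⟨Ne.symm h, h2, h1⟩⟩
  loopless := ⟨by
    rintro p (⟨_, h1 | h1⟩ | ⟨h, _⟩)
    · exact h1.2 h1.1
    · exact h1.1 h1.2
    · exact h rfl⟩

variable {k : ℕ}

theorem adj_hub_copy (v w : Fin k) (s t : Bool) :
    (gapGraph k).Adj (v, none, s) (v, some w, t) := by
  left
  exact ⟨rfl, Or.inl ⟨rfl, by simp⟩⟩

theorem adj_copy_copy {v w : Fin k} (h : v ≠ w) (s t : Bool) :
    (gapGraph k).Adj (v, some w, s) (w, some v, t) :=
  Or.inr ⟨h, rfl, rfl⟩

theorem adj_hub {v : Fin k} {s : Bool} {q : Fin k × Option (Fin k) × Bool}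
    (h : (gapGraph k).Adj (v, none, s) q) : ∃ w t, q = (v, some w, t) := by
  obtain ⟨v', w', t⟩ := q
  rcases h with ⟨h, h1 | h1⟩ | ⟨h, h1, h2⟩
  · simp only at h h1
    subst h
    obtain ⟨w, rfl⟩ := Option.ne_none_iff_exists'.1 h1.2
    exact ⟨w, t, rfl⟩
  · exact absurd rfl h1.1
  · simp at h1

/-- The neighbours of the copy `(v, some v, s)` are the two hubs of its block. -/
theorem adj_diag {v : Fin k} {s : Bool} {q : Fin k × Option (Fin k) × Bool}
    (h : (gapGraph k).Adj (v, some v, s) q) : ∃ t, q = (v, none, t) := by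
  obtain ⟨v', w', t⟩ := q
  rcases h with ⟨h, h1 | h1⟩ | ⟨h, h1, h2⟩
  · simp at h1
  · simp only at h h1
    subst h
    exact ⟨t, by rw [h1.2]⟩
  · simp only [Option.some.injEq] at h1
    exact absurd h1 h

/-- In an IRC-colouring all copies of `v` have the same colour. -/
theorem copies_eq {m : ℕ} {c : (gapGraph k).Coloring (Fin m)} (hc : IsIRC _ c)
    (v w : Fin k) (s : Bool) : c (v, some v, false) = c (v, some w, s) := by
  refine eq_color_of_nbr_subset hc (y := (v, none, false)) (adj_hub_copy v v false false).symm ?_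
  intro q hq
  obtain ⟨t, rfl⟩ := adj_diag hq
  exact (adj_hub_copy v w t s).symm

theorem le_of_isIRC {m : ℕ} {c : (gapGraph k).Coloring (Fin m)} (hc : IsIRC _ c) : k ≤ m := by
  have hinj : Function.Injective (fun v : Fin k => c (v, some v, false)) := by
    intro v w h
    by_contra hne
    simp only at h
    rw [copies_eq hc v w false, copies_eq hc w v false] at h
    exact c.valid (adj_copy_copy hne false false) h
  simpa using Fintype.card_le_of_injective _ hinj

/-- A fixed-point-free map on `Fin (n + 3)`. -/
def other {n : ℕ} (v : Fin (n + 3)) : Fin (n + 3) := if v = 0 then 1 else 0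

theorem other_ne {n : ℕ} (v : Fin (n + 3)) : other v ≠ v := by
  unfold other
  split_ifs with h
  · subst h
    simp
  · exact Ne.symm h

/-- The IRC-colouring with `n + 3` colours. -/
def irc (n : ℕ) : (gapGraph (n + 3)).Coloring (Fin (n + 3)) :=
  SimpleGraph.Coloring.mk
    (fun p => match p.2.1 with
      | none => other p.1
      | some _ => p.1)
    (by
      rintro ⟨v, a, s⟩ ⟨w, b, t⟩ (⟨h, h1 | h1⟩ | ⟨h, h1, h2⟩)
      · obtain ⟨h1, h2⟩ := h1
        simp only at h h1 h2
        obtain ⟨b, rfl⟩ := Option.ne_none_iff_exists'.1 h2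
        subst h h1
        exact other_ne v
      · obtain ⟨h2, h1⟩ := h1
        simp only at h h1 h2
        obtain ⟨a, rfl⟩ := Option.ne_none_iff_exists'.1 h2
        subst h h1
        exact (other_ne v).symm
      · simp only at h h1 h2
        subst h1 h2
        exact h)

theorem irc_hub (n : ℕ) (v : Fin (n + 3)) (s : Bool) : irc n (v, none, s) = other v := rfl

theorem irc_copy (n : ℕ) (v w : Fin (n + 3)) (s : Bool) : irc n (v, some w, s) = v := rfl

theorem isIRC_irc (n : ℕ) : IsIRC _ (irc n) := by
  refine ⟨fun v => ⟨(v, some v, false), rfl⟩, ?_⟩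
  rintro x hx p ⟨i, rfl⟩
  -- two members of the committee with the same colour are equal
  have huniq : ∀ {q j}, q = x j → q = x (irc n q) := by
    rintro q j rfl
    rw [hx j]
  rcases hp : x i with ⟨v, a, s⟩
  have hpi : (v, a, s) = x (irc n (v, a, s)) := huniq hp.symm
  rcases a with _ | w
  · -- a hub: one of the two diagonal copies of its block is private
    obtain ⟨t, ht⟩ : ∃ t : Bool, x v ≠ (v, some v, t) := by
      by_cases h : x v = (v, some v, false)
      · exact ⟨true, by rw [h]; simp⟩
      · exact ⟨false, h⟩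
    refine ⟨(v, some v, t), Or.inr (adj_hub_copy v v s t), ?_⟩
    rintro u ⟨j, rfl⟩ hne (h | h)
    · exact ht ((huniq h).symm)
    · obtain ⟨t', ht'⟩ := adj_diag h.symm
      apply hne
      have h1 := huniq ht'.symm
      rw [irc_hub] at h1
      rw [ht', h1, hpi, irc_hub]
  · -- a copy: one of the two hubs of its block is private
    obtain ⟨t, ht⟩ : ∃ t : Bool, x (other v) ≠ (v, none, t) := by
      by_cases h : x (other v) = (v, none, false)
      · exact ⟨true, by rw [h]; simp⟩
      · exact ⟨false, h⟩
    refine ⟨(v, none, t), Or.inr (adj_hub_copy v w t s).symm, ?_⟩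
    rintro u ⟨j, rfl⟩ hne (h | h)
    · exact ht ((huniq h).symm)
    · obtain ⟨w', t', ht'⟩ := adj_hub h.symm
      apply hne
      have h1 := huniq ht'.symm
      rw [irc_copy] at h1
      rw [ht', h1, hpi, irc_copy]

/-- The graph is 3-colourable. -/
theorem colorable_three : (gapGraph k).Colorable 3 := by
  refine ⟨SimpleGraph.Coloring.mk (fun p => match p.2.1 with
      | none => (2 : Fin 3)
      | some w => if p.1 < w then 0 else 1) ?_⟩
  rintro ⟨v, a, s⟩ ⟨w, b, t⟩ (⟨h, h1 | h1⟩ | ⟨h, h1, h2⟩)
  · obtain ⟨h1, h2⟩ := h1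
    simp only at h h1 h2
    obtain ⟨b, rfl⟩ := Option.ne_none_iff_exists'.1 h2
    subst h1
    simp only
    split_ifs <;> decide
  · obtain ⟨h2, h1⟩ := h1
    simp only at h h1 h2
    obtain ⟨a, rfl⟩ := Option.ne_none_iff_exists'.1 h2
    subst h1
    simp only
    split_ifs <;> decide
  · simp only at h h1 h2
    subst h1 h2
    simp only
    rcases lt_or_gt_of_ne h with h' | h'
    · simp [h', h'.not_gt]
    · simp [h', h'.not_gt]

/-- The graph is not 2-colourable once there are three blocks. -/
theorem not_colorable_two (hk : 3 ≤ k) : ¬ (gapGraph k).Colorable 2 := by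
  rintro ⟨C⟩
  have key : ∀ (v w : Fin k) (s : Bool), C (v, some w, s) = 1 - C (v, none, false) := by
    intro v w s
    have h := C.valid (adj_hub_copy v w false s)
    revert h
    generalize C (v, some w, s) = a
    generalize C (v, none, false) = b
    revert a b
    decide
  have hne : ∀ v w : Fin k, v ≠ w → C (v, none, false) ≠ C (w, none, false) := by
    intro v w hvw h
    have h1 := C.valid (adj_copy_copy hvw false false)
    rw [key, key, h] at h1
    exact h1 rfl
  have h01 := hne ⟨0, by omega⟩ ⟨1, by omega⟩ (by simp)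
  have h02 := hne ⟨0, by omega⟩ ⟨2, by omega⟩ (by simp)
  have h12 := hne ⟨1, by omega⟩ ⟨2, by omega⟩ (by simp)
  revert h01 h02 h12
  generalize C (⟨0, _⟩, none, false) = a
  generalize C (⟨1, _⟩, none, false) = b
  generalize C (⟨2, _⟩, none, false) = c
  revert a b c
  decide

theorem connected_gap (n : ℕ) : (gapGraph (n + 1)).Connected := by
  have hcopy : ∀ (v w : Fin (n + 1)) (s : Bool),
      (gapGraph (n + 1)).Reachable (v, some w, s) (v, none, false) := fun v w s =>
    (adj_hub_copy v w false s).symm.reachable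
  have hhub : ∀ (v : Fin (n + 1)) (s : Bool),
      (gapGraph (n + 1)).Reachable (v, none, s) (v, none, false) := fun v s =>
    ((adj_hub_copy v v s false).reachable).trans (hcopy v v false)
  have hblock : ∀ v : Fin (n + 1),
      (gapGraph (n + 1)).Reachable (v, none, false) (0, none, false) := by
    intro v
    by_cases hv : v = 0
    · subst hv
      exact SimpleGraph.Reachable.refl _
    · exact ((hcopy v 0 false).symm.trans (adj_copy_copy hv false false).reachable).trans
        (hcopy 0 v false)
  have hall : ∀ p, (gapGraph (n + 1)).Reachable p (0, none, false) := by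
    rintro ⟨v, a, s⟩
    rcases a with _ | w
    · exact (hhub v s).trans (hblock v)
    · exact (hcopy v w s).trans (hblock v)
  exact ⟨fun p q => (hall p).trans (hall q).symm⟩

theorem chromaticNumber_gap (hk : 3 ≤ k) : (gapGraph k).chromaticNumber = 3 := by
  have h := (SimpleGraph.chromaticNumber_eq_iff_colorable_not_colorable
    (G := gapGraph k) (n := 2)).2 ⟨colorable_three, not_colorable_two hk⟩
  rw [h]
  norm_num

/-- **IRC-colourings may need arbitrarily many more than `χ(G)` colours.** For every `k ≥ 3`
there is a finite connected graph of chromatic number three which has an IRC-colouring with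
`k` colours but no IRC-colouring with fewer than `k` colours. -/
theorem result (k : ℕ) (hk : 3 ≤ k) :
    ∃ (V : Type) (_ : Finite V) (G : SimpleGraph V), G.Connected ∧ G.chromaticNumber = 3 ∧
      (∃ c : G.Coloring (Fin k), IsIRC G c) ∧
      ∀ m < k, ∀ c : G.Coloring (Fin m), ¬ IsIRC G c := by
  obtain ⟨n, rfl⟩ : ∃ n, k = n + 3 := ⟨k - 3, by omega⟩
  exact ⟨_, inferInstance, gapGraph (n + 3), connected_gap (n + 2), chromaticNumber_gap (by omega),
    ⟨irc n, isIRC_irc n⟩, fun m hm c hc => absurd (le_of_isIRC hc) (by omega)⟩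

end Pool.Agent.Results.MP_c3fc26_co.UnboundedGap
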